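import Mathlib

/-!
# Slice rank of tensors whose diagonal entries are maximal elements of the support

`A` is a finite set and `f : (Fin k → A) → F` a tensor with `k` indices in `A` over a field `F`.

* `SliceRankLE f r`: `f` is a sum of `r` slices, a slice being the product of a function of one
  variable `x i` and a function of the other variables.
* `Dominated φ f`: the diagonal entries of `f` are nonzero and are maximal elements of the
  support of `f` for the orders of the `k` copies of `A` given by the maps `φ i : A → O`.

Main results: such a tensor has slice rank at least `|A|` (`le_of_slices`); and if in some bases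
all coefficients of total weight less than one vanish then the total weight is at least `|A|`
(`le_of_weights`).
-/

set_option autoImplicit false

namespace Pool.Agent.H148.SR

open Finset

universe u v

variable {F : Type u} [Field F] {A : Type v} {k : ℕ}

/-- `f` is a sum of `r` slices; the `j`-th slice is the product of the function `g j` of the
variable with the index `d j` and of the function `h j` of the other variables. -/
def SliceRankLE (f : (Fin k → A) → F) (r : ℕ) : Prop :=
  ∃ (d : Fin r → Fin k) (g : Fin r → A → F) (h : Fin r → (Fin k → A) → F),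
    (∀ j, ∀ x y : Fin k → A, (∀ i, i ≠ d j → x i = y i) → h j x = h j y) ∧
    ∀ x, f x = ∑ j, g j (x (d j)) * h j x

/-- The diagonal entries are nonzero and maximal elements of the support. -/
structure Dominated {O : Type*} [LinearOrder O] (φ : Fin k → A → O) (f : (Fin k → A) → F) :
    Prop where
  inj : ∀ i, Function.Injective (φ i)
  diag : ∀ a, f (fun _ => a) ≠ 0
  max : ∀ a x, f x ≠ 0 → (∀ i, φ i a ≤ φ i (x i)) → x = fun _ => a

/-- `a` is the least element of the support of `h` -/
def Leads {O : Type*} [LinearOrder O] (φ : A → O) (h : A → F) (a : A) : Prop :=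
  h a ≠ 0 ∧ ∀ x, φ x < φ a → h x = 0

section lead

variable [Fintype A] {O : Type*} [LinearOrder O]

/-- the number of elements that do not lead any vector of `V` is at most the codimension -/
theorem card_not_leads (φ : A → O) (V : Submodule F (A → F))
    (N : Finset A) (hN : ∀ a ∈ N, ¬ ∃ h ∈ V, Leads φ h a) :
    N.card + Module.finrank F V ≤ Fintype.card A := by
  classical
  by_contra hcon
  push Not at hcon
  -- functions supported on `N`
  let W : Submodule F (A → F) :=
    { carrier := {h | ∀ x, x ∉ N → h x = 0}
      add_mem' := by
        intro a b ha hb x hx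
        simp [ha x hx, hb x hx]
      zero_mem' := by intro x _; rfl
      smul_mem' := by
        intro c a ha x hx
        simp [ha x hx] }
  have hW : N.card ≤ Module.finrank F W := by
    have hli : LinearIndependent F (fun a : N => (⟨Pi.single (a : A) (1 : F), by
        intro x hx
        have hne : x ≠ (a : A) := fun h => hx (h ▸ a.2)
        simp [Pi.single_eq_of_ne hne]⟩ : W)) := by
      apply LinearIndependent.of_comp W.subtype
      have h1 : LinearIndependent F (fun a : A => (Pi.single a (1 : F) : A → F)) := by
        have := (Pi.basisFun F A).linearIndependent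
        convert this using 1
        ext a b
        simp [Pi.basisFun_apply]
      have h2 := h1.comp (fun a : N => (a : A)) Subtype.val_injective
      exact h2
    have := hli.fintype_card_le_finrank
    simpa using this
  have hsum := Submodule.finrank_sup_add_finrank_inf_eq V W
  have htop : Module.finrank F ↥(V ⊔ W) ≤ Fintype.card A := by
    have := Submodule.finrank_le (V ⊔ W)
    rwa [Module.finrank_fintype_fun_eq_card] at this
  have hpos : 0 < Module.finrank F ↥(V ⊓ W) := by omega
  have hne : V ⊓ W ≠ ⊥ := by
    intro h
    rw [h, finrank_bot] at hpos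
    exact lt_irrefl _ hpos
  obtain ⟨h, hh, hh0⟩ := (Submodule.ne_bot_iff _).mp hne
  rw [Submodule.mem_inf] at hh
  -- the least element of the support
  have hsupp : (univ.filter (fun a => h a ≠ 0)).Nonempty := by
    by_contra hemp
    rw [not_nonempty_iff_eq_empty, filter_eq_empty_iff] at hemp
    apply hh0
    ext a
    have := hemp (mem_univ a)
    push Not at this
    simpa using this
  obtain ⟨a, ha, hmin⟩ := exists_min_image _ φ hsupp
  rw [mem_filter] at ha
  have haN : a ∈ N := by
    by_contra haN
    exact ha.2 (hh.2 a haN)
  refine hN a haN ⟨h, hh.1, ha.2, ?_⟩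
  intro x hx
  by_contra hx0
  exact absurd (hmin x (mem_filter.mpr ⟨mem_univ _, hx0⟩)) (not_le.mpr hx)

variable {φ : Fin k → A → O} {f : (Fin k → A) → F}

/-- evaluation of the multilinear form on functions led by `a` -/
theorem eval_leads (hf : Dominated φ f) (a : A) (h : Fin k → A → F)
    (hh : ∀ i, Leads (φ i) (h i) a) : ∑ x, f x * ∏ i, h i (x i) ≠ 0 := by
  classical
  rw [Finset.sum_eq_single (fun _ => a)]
  · refine mul_ne_zero (hf.diag a) ?_
    rw [Finset.prod_ne_zero_iff]
    intro i _
    exact (hh i).1
  · intro x _ hx
    by_contra h0
    have h1 : f x ≠ 0 := left_ne_zero_of_mul h0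
    have h2 : ∀ i, h i (x i) ≠ 0 := by
      have := right_ne_zero_of_mul h0
      rw [Finset.prod_ne_zero_iff] at this
      intro i
      exact this i (mem_univ i)
    apply hx
    apply hf.max a x h1
    intro i
    by_contra hlt
    exact h2 i ((hh i).2 (x i) (not_le.mp hlt))
  · intro h0
    exact absurd (mem_univ _) h0

/-- a slice vanishes on functions one of which is orthogonal to its one variable factor -/
theorem slice_zero (d : Fin k) (g : A → F) (H : (Fin k → A) → F)
    (hH : ∀ x y : Fin k → A, (∀ i, i ≠ d → x i = y i) → H x = H y) (h : Fin k → A → F)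
    (hd : ∑ a, g a * h d a = 0) : ∑ x : Fin k → A, g (x d) * H x * ∏ i, h i (x i) = 0 := by
  classical
  rw [← (Equiv.funSplitAt d A).symm.sum_comp, Fintype.sum_prod_type_right]
  refine sum_eq_zero fun y _ => ?_
  by_cases hA : IsEmpty A
  · exact sum_eq_zero fun a _ => (hA.false a).elim
  rw [not_isEmpty_iff] at hA
  obtain ⟨a₀⟩ := hA
  have key : ∀ a : A, g ((Equiv.funSplitAt d A).symm (a, y) d) * H ((Equiv.funSplitAt d A).symm (a, y)) *
      ∏ i, h i ((Equiv.funSplitAt d A).symm (a, y) i) =
      (g a * h d a) * (H ((Equiv.funSplitAt d A).symm (a₀, y)) *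
        ∏ i ∈ univ.erase d, h i ((Equiv.funSplitAt d A).symm (a₀, y) i)) := by
    intro a
    have h1 : ∀ b : A, (Equiv.funSplitAt d A).symm (b, y) d = b := by
      intro b; simp [Equiv.funSplitAt, Equiv.piSplitAt]
    have h2 : ∀ b c : A, ∀ i, i ≠ d → (Equiv.funSplitAt d A).symm (b, y) i =
        (Equiv.funSplitAt d A).symm (c, y) i := by
      intro b c i hi; simp [Equiv.funSplitAt, Equiv.piSplitAt, hi]
    rw [h1, hH _ _ (h2 a a₀), ← Finset.mul_prod_erase univ _ (mem_univ d), h1]
    have h3 : ∏ i ∈ univ.erase d, h i ((Equiv.funSplitAt d A).symm (a, y) i) =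
        ∏ i ∈ univ.erase d, h i ((Equiv.funSplitAt d A).symm (a₀, y) i) := by
      refine prod_congr rfl fun i hi => ?_
      rw [h2 a a₀ i (ne_of_mem_erase hi)]
    rw [h3]
    ring
  rw [sum_congr rfl fun a _ => key a, ← sum_mul, hd, zero_mul]

/-- the slice rank is at least the number of indices -/
theorem le_of_slices (hf : Dominated φ f) (r : ℕ) (hr : SliceRankLE f r) : Fintype.card A ≤ r := by
  classical
  obtain ⟨d, g, H, hH, hfx⟩ := hr
  by_contra hcon
  push Not at hcon
  -- the functions orthogonal to the one variable factors of direction `i`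
  let L : Fin k → (A → F) →ₗ[F] (Fin r → F) := fun i =>
    LinearMap.pi fun j => if d j = i then
      ∑ a, (g j a) • (LinearMap.proj a : (A → F) →ₗ[F] F) else 0
  let V : Fin k → Submodule F (A → F) := fun i => LinearMap.ker (L i)
  have hV : ∀ i, Fintype.card A ≤ Module.finrank F (V i) +
      (univ.filter (fun j => d j = i)).card := by
    intro i
    have h1 := LinearMap.finrank_range_add_finrank_ker (L i)
    rw [Module.finrank_fintype_fun_eq_card] at h1
    have h2 : Module.finrank F (LinearMap.range (L i)) ≤ (univ.filter (fun j => d j = i)).card := by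
      -- the range is contained in the functions supported on `{j | d j = i}`
      let P : (Fin r → F) →ₗ[F] ({j // d j = i} → F) :=
        LinearMap.pi fun j => LinearMap.proj (j : Fin r)
      have h3 : Function.Injective (P.domRestrict (LinearMap.range (L i))) := by
        rw [← LinearMap.ker_eq_bot, LinearMap.ker_eq_bot']
        rintro ⟨v, hv⟩ hv0
        obtain ⟨w, rfl⟩ := hv
        ext j
        by_cases hj : d j = i
        · have := congrFun hv0 ⟨j, hj⟩
          simpa [P] using this
        · simp [L, hj]
      have h4 := LinearMap.finrank_le_finrank_of_injective h3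
      rw [Module.finrank_fintype_fun_eq_card, Fintype.card_subtype] at h4
      exact h4
    change Fintype.card A ≤ Module.finrank F (LinearMap.ker (L i)) + _
    omega
  -- the elements which do not lead
  let N : Fin k → Finset A := fun i => univ.filter (fun a => ¬ ∃ h ∈ V i, Leads (φ i) h a)
  have hN : ∀ i, (N i).card ≤ (univ.filter (fun j => d j = i)).card := by
    intro i
    have h1 := card_not_leads (φ i) (V i) (N i) (by
      intro a ha
      exact (mem_filter.mp ha).2)
    have h2 := hV i
    omega
  have htot : (univ.biUnion N).card ≤ r := by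
    calc (univ.biUnion N).card ≤ ∑ i, (N i).card := card_biUnion_le
      _ ≤ ∑ i, (univ.filter (fun j => d j = i)).card := sum_le_sum fun i _ => hN i
      _ = (univ : Finset (Fin r)).card := by
          rw [← card_eq_sum_card_fiberwise (f := d) (t := univ)]
          intro j _
          exact mem_coe.mpr (mem_univ _)
      _ = r := by simp
  obtain ⟨a, ha⟩ : ∃ a, a ∉ univ.biUnion N := by
    by_contra hall
    push Not at hall
    have : (univ : Finset A) ⊆ univ.biUnion N := fun a _ => hall a
    have := card_le_card this
    rw [card_univ] at this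
    omega
  have hlead : ∀ i, ∃ h ∈ V i, Leads (φ i) h a := by
    intro i
    by_contra hi
    exact ha (mem_biUnion.mpr ⟨i, mem_univ _, mem_filter.mpr ⟨mem_univ _, hi⟩⟩)
  choose h hhV hhL using hlead
  apply eval_leads hf a h hhL
  have hexp : ∀ x, f x * ∏ i, h i (x i) = ∑ j, g j (x (d j)) * H j x * ∏ i, h i (x i) := by
    intro x
    rw [hfx, sum_mul]
  rw [sum_congr rfl fun x _ => hexp x, sum_comm]
  refine sum_eq_zero fun j _ => ?_
  apply slice_zero (d j) (g j) (H j) (hH j) h
  have := congrFun (LinearMap.mem_ker.mp (hhV (d j))) j
  simpa [L] using this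

/-- `|A|` slices are always enough -/
theorem slices_card (hk : 0 < k) (f : (Fin k → A) → F) : SliceRankLE f (Fintype.card A) := by
  classical
  let e := (Fintype.equivFin A).symm
  refine ⟨fun _ => ⟨0, hk⟩, fun j a => if a = e j then 1 else 0,
    fun j x => f (Function.update x ⟨0, hk⟩ (e j)), ?_, ?_⟩
  · intro j x y hxy
    have h1 : Function.update x ⟨0, hk⟩ (e j) = Function.update y ⟨0, hk⟩ (e j) := by
      ext i
      by_cases hi : i = ⟨0, hk⟩
      · subst hi; rw [Function.update_self, Function.update_self]
      · rw [Function.update_of_ne hi, Function.update_of_ne hi, hxy i hi]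
    simp only [h1]
  · intro x
    rw [Finset.sum_eq_single (e.symm (x ⟨0, hk⟩))]
    · simp
    · intro j _ hj
      have : x ⟨0, hk⟩ ≠ e j := by
        intro h; apply hj; rw [h]; simp
      simp [this]
    · intro h0
      exact absurd (mem_univ _) h0

/-- Bruhat type statement: for an invertible matrix `g` with weights `w` on its rows there is an
injection `σ` such that every `a` leads some combination of rows of weight at most `w (σ a)` -/
theorem exists_perm [DecidableEq A] (φ : A → O) (g : Matrix A A F)
    (hg : IsUnit g) (w : A → ℝ) :
    ∃ σ : A → A, Function.Injective σ ∧ ∀ a, ∃ c : A → F, (∀ s, w (σ a) < w s → c s = 0) ∧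
      Leads φ (fun x => ∑ s, c s * g s x) a := by
  classical
  let T : A → Finset A := fun a => univ.filter (fun t => ∃ c : A → F, (∀ s, w t < w s → c s = 0) ∧
      Leads φ (fun x => ∑ s, c s * g s x) a)
  have hall := (Finset.all_card_le_biUnion_card_iff_exists_injective T).mp (by
    intro B
    by_contra hcon
    push Not at hcon
    -- the union is an up-set; its complement `D` consists of rows of small weight
    set D : Finset A := univ.filter (fun s => s ∉ B.biUnion T) with hD
    have hDc : D.card + (B.biUnion T).card = Fintype.card A := by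
      have h1 : D = (B.biUnion T)ᶜ := by ext s; simp [hD]
      rw [h1, card_compl]
      have := card_le_univ (B.biUnion T)
      omega
    -- the span of the rows in `D`
    let R : (A → F) →ₗ[F] (A → F) := Matrix.vecMulLinear g
    let V : Submodule F (A → F) := Submodule.span F (Set.range fun s : D => g (s : A))
    have hrows : LinearIndependent F (fun s : A => g s) := by
      have := Matrix.linearIndependent_rows_of_isUnit hg
      exact this
    have hVd : Module.finrank F V = D.card := by
      have h2 := hrows.comp (fun s : D => (s : A)) Subtype.val_injective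
      have h3 := finrank_span_eq_card h2
      rw [Fintype.card_coe] at h3
      exact h3
    have h4 := card_not_leads φ V B (by
      intro a haB
      rintro ⟨h, hhV, hhL⟩
      -- `h` is a combination of the rows in `D`
      have hmem : ∃ c : D → F, ∑ s, c s • g (s : A) = h := by
        rw [Submodule.mem_span_range_iff_exists_fun] at hhV
        exact hhV
      obtain ⟨c, hc⟩ := hmem
      have hDne : D.Nonempty := by
        by_contra hemp
        rw [not_nonempty_iff_eq_empty] at hemp
        have : h = 0 := by
          rw [← hc]
          apply sum_eq_zero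
          rintro ⟨s, hs⟩ _
          rw [hemp] at hs
          exact absurd hs (notMem_empty _)
        exact hhL.1 (by rw [this]; rfl)
      obtain ⟨t, htD, htmax⟩ := exists_max_image D w hDne
      have htT : t ∈ T a := by
        refine mem_filter.mpr ⟨mem_univ _, fun s => if hs : s ∈ D then c ⟨s, hs⟩ else 0, ?_, ?_⟩
        · intro s hs
          have : s ∉ D := fun hsD => absurd (htmax s hsD) (not_le.mpr hs)
          simp [this]
        · have heq : (fun x => ∑ s, (if hs : s ∈ D then c ⟨s, hs⟩ else 0) * g s x) = h := by
            rw [← hc]
            ext x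
            rw [Finset.sum_apply, ← Finset.sum_subset (subset_univ D), ← Finset.sum_coe_sort D]
            · refine sum_congr rfl fun s _ => ?_
              simp
            · intro s _ hs
              simp [hs]
          rw [heq]
          exact hhL
      rw [hD, mem_filter] at htD
      exact htD.2 (mem_biUnion.mpr ⟨a, haB, htT⟩))
    omega)
  obtain ⟨σ, hσ, hσT⟩ := hall
  exact ⟨σ, hσ, fun a => (mem_filter.mp (hσT a)).2⟩

/-- The weighted version: if in some bases the coefficients of total weight less than one vanish,
then the total weight is at least the number of indices. -/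
theorem le_of_weights [DecidableEq A] (hf : Dominated φ f) (g : Fin k → Matrix A A F)
    (hg : ∀ i, IsUnit (g i)) (w : Fin k → A → ℝ)
    (h0 : ∀ s : Fin k → A, ∑ i, w i (s i) < 1 → ∑ x, f x * ∏ i, g i (s i) (x i) = 0) :
    (Fintype.card A : ℝ) ≤ ∑ i, ∑ s, w i s := by
  classical
  choose σ hσ c hc hcL using fun i => exists_perm (φ i) (g i) (hg i) (w i)
  have hone : ∀ a, 1 ≤ ∑ i, w i (σ i a) := by
    intro a
    by_contra hlt
    push Not at hlt
    apply eval_leads hf a (fun i x => ∑ s, c i a s * g i s x) (fun i => hcL i a)
    have hexp : ∀ x : Fin k → A, f x * ∏ i, ∑ s, c i a s * g i s (x i) =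
        ∑ s : Fin k → A, (∏ i, c i a (s i)) * (f x * ∏ i, g i (s i) (x i)) := by
      intro x
      rw [Finset.prod_univ_sum, mul_sum, Fintype.piFinset_univ]
      refine sum_congr rfl fun s _ => ?_
      rw [prod_mul_distrib]
      ring
    rw [sum_congr rfl fun x _ => hexp x, sum_comm]
    refine sum_eq_zero fun s _ => ?_
    rw [← mul_sum]
    by_cases hs : ∀ i, w i (s i) ≤ w i (σ i a)
    · rw [h0 s (lt_of_le_of_lt (sum_le_sum fun i _ => hs i) hlt), mul_zero]
    · push Not at hs
      obtain ⟨i, hi⟩ := hs
      have : ∏ i, c i a (s i) = 0 := prod_eq_zero (mem_univ i) (hc i a (s i) hi)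
      rw [this, zero_mul]
  calc (Fintype.card A : ℝ) = ∑ _a : A, (1 : ℝ) := by simp
    _ ≤ ∑ a, ∑ i, w i (σ i a) := sum_le_sum fun a _ => hone a
    _ = ∑ i, ∑ a, w i (σ i a) := sum_comm
    _ ≤ ∑ i, ∑ s, w i s := by
        refine sum_le_sum fun i _ => ?_
        have hb := (Finite.injective_iff_bijective).mp (hσ i)
        exact le_of_eq (hb.sum_comp (fun s => w i s))

end lead

end Pool.Agent.H148.SR
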