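import Mathlib

/-!
# Orders for five-term progressions in groups of odd order

In a finite abelian group `G` of odd order there are five linear orders such that a five-term
progression whose `i`-th term is at least `a` for the `i`-th order, `i = 0, …, 4`, is constant.
-/

set_option autoImplicit false

namespace Pool.Agent.H148.SR

/-- `G` has orders for which the constant progressions are maximal among all `5`-term
progressions. -/
def HasOrders (G : Type*) [AddCommGroup G] : Prop :=
  ∃ (O : Type) (_ : LinearOrder O) (φ : Fin 5 → G → O), (∀ i, Function.Injective (φ i)) ∧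
    ∀ a b r : G, (∀ i : Fin 5, φ i a ≤ φ i (b + (i : ℕ) • r)) → b = a ∧ r = 0

/-- the orders on `ZMod m` -/
def ord (m : ℕ) (i : Fin 5) (x : ZMod m) : ℕ :=
  if i = 1 ∨ i = 3 then (x + (((m - 1) / 2 : ℕ) : ZMod m)).val
  else if i = 2 then m - (2 * x).val else x.val

theorem two_mul_cancel {m : ℕ} (hm : Odd m) {x y : ZMod m} (h : 2 * x = 2 * y) : x = y := by
  obtain ⟨s, hs⟩ := hm
  have h1 : ((s + 1 : ℕ) : ZMod m) * 2 = 1 := by
    have : (((s + 1) * 2 : ℕ) : ZMod m) = ((m + 1 : ℕ) : ZMod m) := by
      congr 1; omega
    push_cast at this ⊢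
    rw [this]
    simp
  have h2 := congrArg (fun z => ((s + 1 : ℕ) : ZMod m) * z) h
  simp only [← mul_assoc, h1, one_mul] at h2
  exact h2

theorem ord_injective {m : ℕ} (hm : Odd m) (i : Fin 5) : Function.Injective (ord m i) := by
  have : NeZero m := ⟨by rintro rfl; exact absurd hm (by decide)⟩
  intro x y h
  unfold ord at h
  split_ifs at h
  · exact add_right_cancel (ZMod.val_injective m h)
  · have hx := ZMod.val_lt (2 * x)
    have hy := ZMod.val_lt (2 * y)
    exact two_mul_cancel hm (ZMod.val_injective m (by omega))
  · exact ZMod.val_injective m h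

theorem ord_key {m : ℕ} (hm : Odd m) (a b r : ZMod m)
    (h : ∀ i : Fin 5, ord m i a ≤ ord m i (b + (i : ℕ) • r)) : b = a ∧ r = 0 := by
  have : NeZero m := ⟨by rintro rfl; exact absurd hm (by decide)⟩
  have h0 := h 0
  have h1 := h 1
  have h2 := h 2
  have h3 := h 3
  have h4 := h 4
  obtain ⟨s, hs⟩ := hm
  have hms : (m - 1) / 2 = s := by omega
  simp only [ord, hms, Fin.isValue, Fin.reduceEq, or_self, ↓reduceIte, or_true, true_or,
    Fin.val_zero, Fin.val_one, Fin.val_two, zero_smul, add_zero, one_smul] at h0 h1 h2 h3 h4
  have e3 : (((3 : Fin 5) : ℕ)) = 3 := rfl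
  have e4 : (((4 : Fin 5) : ℕ)) = 4 := rfl
  rw [e3] at h3
  rw [e4] at h4
  have ha := ZMod.val_lt a
  have hx2 := ZMod.val_lt (2 * (b + 2 • r))
  have h2a := ZMod.val_lt (2 * a)
  have h2' : (2 * (b + 2 • r)).val ≤ (2 * a).val := by omega
  have hmodd : Odd m := ⟨s, hs⟩
  -- it is enough to know `b = a` and `b + 4 r = a`, or `b + r = a = b + 3 r`
  by_cases hc : 2 * a.val < m
  · -- small `a`
    have hA : a.val ≤ s := by omega
    have hval2a : (2 * a).val = 2 * a.val := by
      have : (2 * a) = ((2 * a.val : ℕ) : ZMod m) := by push_cast; rw [ZMod.natCast_zmod_val]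
      rw [this, ZMod.val_natCast, Nat.mod_eq_of_lt hc]
    have hvalas : (a + (s : ZMod m)).val = a.val + s := by
      have : (a + (s : ZMod m)) = ((a.val + s : ℕ) : ZMod m) := by
        push_cast; rw [ZMod.natCast_zmod_val]
      rw [this, ZMod.val_natCast, Nat.mod_eq_of_lt (by omega)]
    rw [hvalas] at h1 h3
    set u := (b + r + (s : ZMod m)).val with hu
    set v := (b + 3 • r + (s : ZMod m)).val with hv
    have hult : u < m := ZMod.val_lt _
    have hvlt : v < m := ZMod.val_lt _
    have hsum : (2 * (b + 2 • r)) = ((u + v + 1 : ℕ) : ZMod m) := by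
      push_cast
      rw [hu, hv, ZMod.natCast_zmod_val, ZMod.natCast_zmod_val]
      have hm0 : (2 * s + 1 : ZMod m) = 0 := by
        have : ((2 * s + 1 : ℕ) : ZMod m) = 0 := by rw [← hs]; exact ZMod.natCast_self m
        push_cast at this
        exact this
      simp only [nsmul_eq_mul]
      push_cast
      linear_combination (-1 : ZMod m) * hm0
    have hval : (2 * (b + 2 • r)).val = u + v + 1 - m := by
      rw [hsum, ZMod.val_natCast, Nat.mod_eq_sub_mod (by omega), Nat.mod_eq_of_lt (by omega)]
    have hu' : u = a.val + s := by omega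
    have hv' : v = a.val + s := by omega
    have e1 : b + r = a := by
      have : b + r + (s : ZMod m) = a + (s : ZMod m) := by
        apply ZMod.val_injective m
        rw [hvalas, ← hu, hu']
      exact add_right_cancel this
    have e2 : b + 3 • r = a := by
      have : b + 3 • r + (s : ZMod m) = a + (s : ZMod m) := by
        apply ZMod.val_injective m
        rw [hvalas, ← hv, hv']
      exact add_right_cancel this
    have hr : r = 0 := by
      apply two_mul_cancel hmodd
      have : b + 3 • r = b + r := by rw [e1, e2]
      simp only [nsmul_eq_mul] at this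
      push_cast at this
      linear_combination this
    subst hr
    simp at e1
    exact ⟨e1, rfl⟩
  · -- large `a`
    push Not at hc
    have hval2a : (2 * a).val = 2 * a.val - m := by
      have : (2 * a) = ((2 * a.val : ℕ) : ZMod m) := by push_cast; rw [ZMod.natCast_zmod_val]
      rw [this, ZMod.val_natCast, Nat.mod_eq_sub_mod hc, Nat.mod_eq_of_lt (by omega)]
    set u := b.val with hu
    set v := (b + 4 • r).val with hv
    have hult : u < m := ZMod.val_lt _
    have hvlt : v < m := ZMod.val_lt _
    have hsum : (2 * (b + 2 • r)) = ((u + v : ℕ) : ZMod m) := by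
      push_cast
      rw [hu, hv, ZMod.natCast_zmod_val, ZMod.natCast_zmod_val]
      simp only [nsmul_eq_mul]
      push_cast
      ring
    have hval : (2 * (b + 2 • r)).val = u + v - m := by
      rw [hsum, ZMod.val_natCast, Nat.mod_eq_sub_mod (by omega), Nat.mod_eq_of_lt (by omega)]
    have hu' : u = a.val := by omega
    have hv' : v = a.val := by omega
    have e1 : b = a := ZMod.val_injective m (by rw [← hu, hu'])
    have e2 : b + 4 • r = a := ZMod.val_injective m (by rw [← hv, hv'])
    refine ⟨e1, ?_⟩
    apply two_mul_cancel hmodd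
    apply two_mul_cancel hmodd
    rw [e1] at e2
    simp only [nsmul_eq_mul] at e2
    push_cast at e2
    linear_combination e2

/-- the groups `∏ ZMod (m j)`, `m j` odd -/
theorem hasOrders_pi {ι : Type} [Fintype ι] [LinearOrder ι] (m : ι → ℕ) (hm : ∀ j, Odd (m j)) :
    HasOrders (∀ j, ZMod (m j)) := by
  refine ⟨Lex (ι → ℕ), inferInstance, fun i x => toLex (fun j => ord (m j) i (x j)), ?_, ?_⟩
  · intro i x y h
    ext j
    exact ord_injective (hm j) i (congrFun (toLex.injective h) j)
  · intro a b r h
    have key : ∀ j, b j = a j ∧ r j = 0 := by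
      intro j
      induction j using WellFoundedLT.induction with
      | ind j ih =>
        apply ord_key (hm j)
        intro i
        rcases (h i).lt_or_eq with hlt | heq
        · obtain ⟨l, hl1, hl2⟩ := hlt
          rcases lt_trichotomy l j with hlj | rfl | hjl
          · exfalso
            have h1 := (ih l hlj).1
            have h2 := (ih l hlj).2
            simp only [Pi.toLex_apply, Pi.add_apply, Pi.smul_apply, h1, h2, smul_zero,
              add_zero, lt_irrefl] at hl2
          · exact hl2.le
          · exact (hl1 j hjl).le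
        · exact (congrFun (toLex.injective heq) j).le
    exact ⟨funext fun j => (key j).1, funext fun j => (key j).2⟩

theorem HasOrders.of_injective {G H : Type*} [AddCommGroup G] [AddCommGroup H] (e : G →+ H)
    (he : Function.Injective e) (h : HasOrders H) : HasOrders G := by
  obtain ⟨O, _, φ, hφ, hmax⟩ := h
  refine ⟨O, inferInstance, fun i x => φ i (e x), fun i => (hφ i).comp he, ?_⟩
  intro a b r hab
  have := hmax (e a) (e b) (e r) (by
    intro i
    have := hab i
    simp only [map_add, map_nsmul] at this
    exact this)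
  refine ⟨he this.1, he ?_⟩
  rw [this.2, map_zero]

/-- all finite abelian groups of odd order -/
theorem hasOrders_of_odd (G : Type*) [AddCommGroup G] [Finite G] (hG : Odd (Nat.card G)) :
    HasOrders G := by
  classical
  obtain ⟨ι, hι, n, hn, ⟨e⟩⟩ := AddCommGroup.equiv_directSum_zmod_of_finite' G
  let _ : LinearOrder ι := LinearOrder.lift' (Fintype.equivFin ι) (Fintype.equivFin ι).injective
  let e2 : G ≃+ (∀ j, ZMod (n j)) := e.trans (DirectSum.addEquivProd _)
  have hcard : Nat.card G = ∏ j, n j := by
    rw [Nat.card_congr e2.toEquiv, Nat.card_pi]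
    simp
  have hodd : ∀ j, Odd (n j) := by
    intro j
    have : n j ∣ Nat.card G := by
      rw [hcard]; exact Finset.dvd_prod_of_mem n (Finset.mem_univ j)
    exact hG.of_dvd_nat this
  exact HasOrders.of_injective e2.toAddMonoidHom e2.injective (hasOrders_pi n hodd)

end Pool.Agent.H148.SR
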