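import Pool.Agent.H148.SR.Core

/-!
# The pairing lemma

`T : (Fin k → Y) → F` is a tensor such that both the coordinates in `S` and the coordinates
outside `S` of an element of the support determine it, and the support is uniformly distributed
in every coordinate. If `T` vanishes on `U 0 × ... × U (k-1)`, `U i ≤ F^Y`, then the sum
of the codimensions of the `U i` is at least `|Y|`.
-/

set_option autoImplicit false

namespace Pool.Agent.H148.SR

open Finset

universe u v

variable {F : Type u} [Field F] {Y : Type v} {k : ℕ}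

/-- Triangularity: products of functions led by the coordinates of the elements of a set `E` of
support elements, which are determined by their coordinates in `S`, are linearly independent
functions on the support. -/
theorem indep_products (φ : Y → ℕ) (hφ : Function.Injective φ) (P : (Fin k → Y) → Prop)
    (S : Finset (Fin k)) (hS : ∀ x y, P x → P y → (∀ i ∈ S, x i = y i) → x = y)
    (t : (Fin k → Y) → F) (ht : ∀ x, P x → t x ≠ 0) (H : Fin k → Y → Y → F)
    (E : Finset {x // P x})
    (hE : ∀ a ∈ E, ∀ i ∈ S, Leads φ (H i ((a : Fin k → Y) i)) ((a : Fin k → Y) i)) :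
    LinearIndependent F (fun (a : E) (b : {x // P x}) =>
      t b * ∏ i ∈ S, H i ((a : Fin k → Y) i) ((b : Fin k → Y) i)) := by
  classical
  rw [Fintype.linearIndependent_iff]
  intro c hc
  by_contra hne
  push Not at hne
  have hnon : (univ.filter (fun a : E => c a ≠ 0)).Nonempty := by
    obtain ⟨a, ha⟩ := hne
    exact ⟨a, by simp [ha]⟩
  obtain ⟨a, ha, hmin⟩ := exists_min_image _
    (fun a : E => ∑ i ∈ S, φ ((a : Fin k → Y) i)) hnon
  rw [mem_filter] at ha
  have h1 := congrFun hc (a : {x // P x})
  rw [Finset.sum_apply, Finset.sum_eq_single a] at h1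
  · simp only [Pi.smul_apply, smul_eq_mul, Pi.zero_apply, mul_eq_zero, ha.2, false_or] at h1
    rcases h1 with h1 | h1
    · exact ht _ (a : {x // P x}).2 h1
    · rw [Finset.prod_eq_zero_iff] at h1
      obtain ⟨i, hi, h1⟩ := h1
      exact (hE a a.2 i hi).1 h1
  · intro b _ hba
    by_contra h0
    simp only [Pi.smul_apply, smul_eq_mul, mul_eq_zero, not_or] at h0
    obtain ⟨hcb, -, hprod⟩ := h0
    rw [Finset.prod_eq_zero_iff] at hprod
    push Not at hprod
    have hle : ∀ i ∈ S, φ ((b : Fin k → Y) i) ≤ φ ((a : Fin k → Y) i) := by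
      intro i hi
      by_contra hlt
      exact hprod i hi ((hE b b.2 i hi).2 _ (not_le.mp hlt))
    have hge := hmin b (mem_filter.mpr ⟨mem_univ _, hcb⟩)
    have heq : ∀ i ∈ S, φ ((b : Fin k → Y) i) = φ ((a : Fin k → Y) i) :=
      (Finset.sum_eq_sum_iff_of_le hle).mp (le_antisymm (sum_le_sum hle) hge)
    apply hba
    apply Subtype.ext
    apply Subtype.ext
    exact hS _ _ (b : {x // P x}).2 (a : {x // P x}).2 fun i hi => hφ (heq i hi)
  · intro h0
    exact absurd (mem_univ _) h0

variable [Fintype Y] [DecidableEq Y]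

/-- **The pairing lemma.** -/
theorem pairing (T : (Fin k → Y) → F) (S : Finset (Fin k))
    (hS1 : ∀ x y, T x ≠ 0 → T y ≠ 0 → (∀ i ∈ S, x i = y i) → x = y)
    (hS2 : ∀ x y, T x ≠ 0 → T y ≠ 0 → (∀ i ∈ Sᶜ, x i = y i) → x = y)
    (hne : ∃ x, T x ≠ 0)
    (m : Fin k → Y → ℕ) (hm : ∀ i y, Fintype.card Y * m i y = Nat.card {x // T x ≠ 0})
    (hmc : ∀ i y, Nat.card {x // T x ≠ 0 ∧ x i = y} = m i y)
    (U : Fin k → Submodule F (Y → F)) (c : Fin k → ℕ)
    (hc : ∀ i, Fintype.card Y ≤ Module.finrank F (U i) + c i)
    (h0 : ∀ h : Fin k → Y → F, (∀ i, h i ∈ U i) → ∑ x, T x * ∏ i, h i (x i) = 0) :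
    Fintype.card Y ≤ ∑ i, c i := by
  classical
  set φ : Y → ℕ := fun y => (Fintype.equivFin Y y : ℕ) with hφdef
  have hφ : Function.Injective φ := fun x y hxy =>
    (Fintype.equivFin Y).injective (Fin.ext hxy)
  let N : Fin k → Finset Y := fun i => univ.filter (fun a => ¬ ∃ h ∈ U i, Leads φ h a)
  have hN : ∀ i, (N i).card ≤ c i := by
    intro i
    have h1 := card_not_leads φ (U i) (N i) (by
      intro a ha
      exact (mem_filter.mp ha).2)
    have h2 := hc i
    omega
  -- leading functions
  have hlead : ∀ (i : Fin k) (y : Y), ∃ h : Y → F, h ∈ U i ∧ (y ∉ N i → Leads φ h y) := by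
    intro i y
    by_cases hy : y ∈ N i
    · exact ⟨0, (U i).zero_mem, fun h => absurd hy h⟩
    · have : ∃ h ∈ U i, Leads φ h y := by
        by_contra hcon
        exact hy (mem_filter.mpr ⟨mem_univ _, hcon⟩)
      obtain ⟨h, hh, hL⟩ := this
      exact ⟨h, hh, fun _ => hL⟩
  choose H HU HL using hlead
  set P : (Fin k → Y) → Prop := fun x => T x ≠ 0 with hP
  let E1 : Finset {x // P x} := univ.filter (fun a => ∀ i ∈ S, (a : Fin k → Y) i ∉ N i)
  let E2 : Finset {x // P x} := univ.filter (fun a => ∀ i ∈ Sᶜ, (a : Fin k → Y) i ∉ N i)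
  have hI1 := indep_products (F := F) φ hφ P S hS1 (fun _ => 1) (fun _ _ => one_ne_zero) H E1 (by
    intro a ha i hi
    exact HL i _ ((mem_filter.mp ha).2 i hi))
  have hI2 := indep_products (F := F) φ hφ P Sᶜ hS2 T (fun x hx => hx) H E2 (by
    intro a ha i hi
    exact HL i _ ((mem_filter.mp ha).2 i hi))
  -- orthogonality
  have hsum : E1.card + E2.card ≤ Fintype.card {x // P x} := by
    let M1 : Matrix E1 {x // P x} F := Matrix.of (fun (a : E1) (b : {x // P x}) =>
      (1 : F) * ∏ i ∈ S, H i ((a : Fin k → Y) i) ((b : Fin k → Y) i))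
    let M2 : Matrix E2 {x // P x} F := Matrix.of (fun (a : E2) (b : {x // P x}) =>
      T b * ∏ i ∈ Sᶜ, H i ((a : Fin k → Y) i) ((b : Fin k → Y) i))
    have hr1 : M1.rank = Fintype.card E1 := LinearIndependent.rank_matrix hI1
    have hr2 : M2.rank = Fintype.card E2 := LinearIndependent.rank_matrix hI2
    have hmul : M1 * M2.transpose = 0 := by
      ext a b
      rw [Matrix.mul_apply, Matrix.zero_apply]
      have h1 := h0 (fun i => if i ∈ S then H i ((a : Fin k → Y) i) else H i ((b : Fin k → Y) i)) (by
        intro i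
        by_cases hi : i ∈ S
        · simpa [hi] using HU i _
        · simpa [hi] using HU i _)
      have h2 : ∀ x : Fin k → Y, ∏ i, (if i ∈ S then H i ((a : Fin k → Y) i) else
          H i ((b : Fin k → Y) i)) (x i) =
          (∏ i ∈ S, H i ((a : Fin k → Y) i) (x i)) * ∏ i ∈ Sᶜ, H i ((b : Fin k → Y) i) (x i) := by
        intro x
        rw [← Finset.prod_mul_prod_compl S]
        congr 1
        · exact prod_congr rfl fun i hi => by simp [hi]
        · exact prod_congr rfl fun i hi => by simp [mem_compl.mp hi]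
      have h3 : ∑ x : Fin k → Y, T x * ∏ i, (if i ∈ S then H i ((a : Fin k → Y) i) else
          H i ((b : Fin k → Y) i)) (x i) = ∑ x ∈ univ.filter P, T x * ∏ i, (if i ∈ S then
          H i ((a : Fin k → Y) i) else H i ((b : Fin k → Y) i)) (x i) := by
        symm
        apply Finset.sum_subset (filter_subset _ _)
        intro x _ hx
        have : T x = 0 := by
          by_contra hx0
          exact hx (mem_filter.mpr ⟨mem_univ _, hx0⟩)
        rw [this, zero_mul]
      rw [h3, Finset.sum_subtype (univ.filter P) (p := P) (by simp)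
        (fun x => T x * ∏ i, (if i ∈ S then H i ((a : Fin k → Y) i) else
          H i ((b : Fin k → Y) i)) (x i))] at h1
      refine Eq.trans (sum_congr rfl fun x _ => ?_) h1
      rw [h2]
      simp only [M1, M2, Matrix.of_apply, Matrix.transpose_apply, one_mul]
      ring
    have := Matrix.rank_add_rank_le_card_of_mul_eq_zero hmul
    rw [Matrix.rank_transpose, hr1, hr2, Fintype.card_coe, Fintype.card_coe] at this
    exact this
  -- counting
  have hcnt : Fintype.card {x // P x} ≤ ∑ i, ∑ y ∈ N i, m i y := by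
    have h1 : Fintype.card {x // P x} ≤ (E1ᶜ).card + (E2ᶜ).card := by
      rw [card_compl, card_compl]
      have := card_le_univ E1
      have := card_le_univ E2
      omega
    let B : Fin k → Finset {x // P x} := fun i =>
      univ.filter (fun a => (a : Fin k → Y) i ∈ N i)
    have h2 : (E1ᶜ).card ≤ ∑ i ∈ S, (B i).card := by
      refine le_trans (card_le_card ?_) card_biUnion_le
      intro a ha
      rw [mem_compl, mem_filter] at ha
      push Not at ha
      obtain ⟨i, hi, hia⟩ := ha (mem_univ _)
      exact mem_biUnion.mpr ⟨i, hi, mem_filter.mpr ⟨mem_univ _, hia⟩⟩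
    have h3 : (E2ᶜ).card ≤ ∑ i ∈ Sᶜ, (B i).card := by
      refine le_trans (card_le_card ?_) card_biUnion_le
      intro a ha
      rw [mem_compl, mem_filter] at ha
      push Not at ha
      obtain ⟨i, hi, hia⟩ := ha (mem_univ _)
      exact mem_biUnion.mpr ⟨i, hi, mem_filter.mpr ⟨mem_univ _, hia⟩⟩
    have h4 : ∀ i, (B i).card = ∑ y ∈ N i, m i y := by
      intro i
      have : B i = (N i).biUnion (fun y => univ.filter (fun a : {x // P x} =>
          (a : Fin k → Y) i = y)) := by
        ext a
        simp [B]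
      rw [this, card_biUnion]
      · refine sum_congr rfl fun y _ => ?_
        rw [← hmc i y, Nat.card_eq_fintype_card, ← Fintype.card_subtype]
        exact Fintype.card_congr
          { toFun := fun a => ⟨a.1.1, a.1.2, a.2⟩
            invFun := fun a => ⟨⟨a.1, a.2.1⟩, a.2.2⟩
            left_inv := fun a => rfl
            right_inv := fun a => rfl }
      · intro y _ z _ hyz
        refine Finset.disjoint_left.mpr ?_
        intro a ha hb
        rw [mem_filter] at ha hb
        exact hyz (ha.2.symm.trans hb.2)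
    calc Fintype.card {x // P x} ≤ (E1ᶜ).card + (E2ᶜ).card := h1
      _ ≤ ∑ i ∈ S, (B i).card + ∑ i ∈ Sᶜ, (B i).card := add_le_add h2 h3
      _ = ∑ i, (B i).card := Finset.sum_add_sum_compl S _
      _ = ∑ i, ∑ y ∈ N i, m i y := sum_congr rfl fun i _ => h4 i
  have hpos : 0 < Fintype.card {x // P x} := by
    obtain ⟨x, hx⟩ := hne
    exact Fintype.card_pos_iff.mpr ⟨⟨x, hx⟩⟩
  have hfin : Fintype.card Y * Fintype.card {x // P x} ≤
      (∑ i, (N i).card) * Fintype.card {x // P x} := by
    calc Fintype.card Y * Fintype.card {x // P x} ≤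
        Fintype.card Y * ∑ i, ∑ y ∈ N i, m i y := Nat.mul_le_mul_left _ hcnt
      _ = ∑ i, ∑ y ∈ N i, Fintype.card Y * m i y := by
          rw [mul_sum]
          exact sum_congr rfl fun i _ => mul_sum _ _ _
      _ = ∑ i, ∑ y ∈ N i, Fintype.card {x // P x} := by
          refine sum_congr rfl fun i _ => sum_congr rfl fun y _ => ?_
          rw [hm i y, Nat.card_eq_fintype_card]
      _ = (∑ i, (N i).card) * Fintype.card {x // P x} := by
          rw [sum_mul]
          refine sum_congr rfl fun i _ => ?_
          rw [sum_const, smul_eq_mul]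
  exact le_trans (Nat.le_of_mul_le_mul_right hfin hpos) (sum_le_sum fun i _ => hN i)

end Pool.Agent.H148.SR
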