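import Mathlib

/-!
# Counting sequences: large deviations and type classes
-/

set_option autoImplicit false

namespace Pool.Agent.H148.SR

open Finset

universe v

variable {A : Type v} [Fintype A]

/-- Chernoff bound: if the mean of `w` is less than `c` then the number of sequences of length `m`
with sum more than `m c` is at most `ρ ^ m`, `ρ < |A|`. -/
theorem chernoff [Nonempty A] (w : A → ℝ) (c : ℝ) (hc : ∑ s, (w s - c) < 0) :
    ∃ ρ : ℝ, 0 ≤ ρ ∧ ρ < Fintype.card A ∧ ∀ m : ℕ,
      (Nat.card {s : Fin m → A // (m : ℝ) * c < ∑ j, w (s j)} : ℝ) ≤ ρ ^ m := by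
  classical
  -- choose `θ`
  set D : ℝ := ∑ s, (w s - c) with hD
  set Q : ℝ := ∑ s, (w s - c) ^ 2 with hQ
  have hQ0 : 0 ≤ Q := sum_nonneg fun s _ => sq_nonneg _
  obtain ⟨θ, hθ0, hθ1, hθ2⟩ : ∃ θ : ℝ, 0 < θ ∧ (∀ s, |θ * (w s - c)| ≤ 1) ∧ θ * D + θ ^ 2 * Q < 0 := by
    set K : ℝ := 1 + ∑ s, |w s - c| with hK
    have hK1 : 1 ≤ K := by
      have : 0 ≤ ∑ s, |w s - c| := sum_nonneg fun s _ => abs_nonneg _
      linarith
    refine ⟨min (1 / K) (-D / (2 * (Q + 1))), ?_, ?_, ?_⟩
    · apply lt_min
      · positivity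
      · apply div_pos <;> linarith
    · intro s
      have h1 : |w s - c| ≤ K := by
        have : |w s - c| ≤ ∑ s, |w s - c| :=
          single_le_sum (f := fun s => |w s - c|) (fun s _ => abs_nonneg _) (mem_univ s)
        linarith
      have hθ : 0 < min (1 / K) (-D / (2 * (Q + 1))) := by
        apply lt_min
        · positivity
        · apply div_pos <;> linarith
      rw [abs_mul, abs_of_pos hθ]
      calc min (1 / K) (-D / (2 * (Q + 1))) * |w s - c| ≤ 1 / K * K := by
            apply mul_le_mul (min_le_left _ _) h1 (abs_nonneg _)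
            positivity
        _ = 1 := by field_simp
    · set θ : ℝ := min (1 / K) (-D / (2 * (Q + 1))) with hθd
      have hθ : 0 < θ := by
        apply lt_min
        · positivity
        · apply div_pos <;> linarith
      have h2 : θ ≤ -D / (2 * (Q + 1)) := min_le_right _ _
      rw [le_div_iff₀ (by linarith)] at h2
      have h3 : θ * Q ≤ θ * (Q + 1) := by nlinarith
      have h4 : θ * D + θ ^ 2 * Q = θ * (D + θ * Q) := by ring
      rw [h4]
      apply mul_neg_of_pos_of_neg hθ
      nlinarith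
  refine ⟨∑ s, Real.exp (θ * (w s - c)), sum_nonneg fun s _ => (Real.exp_pos _).le, ?_, ?_⟩
  · have h1 : ∀ s, Real.exp (θ * (w s - c)) ≤ 1 + θ * (w s - c) + θ ^ 2 * (w s - c) ^ 2 := by
      intro s
      have := Real.abs_exp_sub_one_sub_id_le (hθ1 s)
      have := (abs_le.mp this).2
      have h5 : (θ * (w s - c)) ^ 2 = θ ^ 2 * (w s - c) ^ 2 := by ring
      linarith
    calc ∑ s, Real.exp (θ * (w s - c)) ≤ ∑ s, (1 + θ * (w s - c) + θ ^ 2 * (w s - c) ^ 2) :=
          sum_le_sum fun s _ => h1 s
      _ = Fintype.card A + (θ * D + θ ^ 2 * Q) := by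
          rw [sum_add_distrib, sum_add_distrib, ← mul_sum, ← mul_sum]
          simp only [sum_const, card_univ, nsmul_eq_mul, mul_one, hD, hQ]
          ring
      _ < Fintype.card A := by linarith
  · intro m
    rw [Fintype.sum_pow]
    rw [Nat.card_eq_fintype_card, Fintype.card_subtype]
    calc ((univ.filter (fun s : Fin m → A => (m : ℝ) * c < ∑ j, w (s j))).card : ℝ) =
        ∑ s ∈ univ.filter (fun s : Fin m → A => (m : ℝ) * c < ∑ j, w (s j)), (1 : ℝ) := by simp
      _ ≤ ∑ s ∈ univ.filter (fun s : Fin m → A => (m : ℝ) * c < ∑ j, w (s j)),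
          ∏ j, Real.exp (θ * (w (s j) - c)) := by
          refine sum_le_sum fun s hs => ?_
          rw [mem_filter] at hs
          rw [← Real.exp_sum, ← mul_sum, sum_sub_distrib]
          apply Real.one_le_exp
          apply mul_nonneg hθ0.le
          simp only [sum_const, card_univ, Fintype.card_fin, nsmul_eq_mul]
          linarith [hs.2]
      _ ≤ ∑ s : Fin m → A, ∏ j, Real.exp (θ * (w (s j) - c)) := by
          apply sum_le_sum_of_subset_of_nonneg (filter_subset _ _)
          intro s _ _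
          exact prod_nonneg fun j _ => (Real.exp_pos _).le

/-- the type of a sequence: the number of occurrences of every letter -/
noncomputable def typ {m : ℕ} (y : Fin m → A) (a : A) : ℕ := Nat.card {j // y j = a}

/-- there is a large type class -/
theorem exists_type (m : ℕ) : ∃ t : A → ℕ,
    (Fintype.card A : ℝ) ^ m ≤ ((m : ℝ) + 1) ^ Fintype.card A *
      Nat.card {y : Fin m → A // typ y = t} := by
  classical
  have hle : ∀ (y : Fin m → A) (a : A), typ y a < m + 1 := by
    intro y a
    unfold typ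
    rw [Nat.card_eq_fintype_card]
    have := Fintype.card_subtype_le (fun j => y j = a)
    rw [Fintype.card_fin] at this
    omega
  let τ : (Fin m → A) → (A → Fin (m + 1)) := fun y a => ⟨typ y a, hle y a⟩
  have h := exists_le_card_fiber_of_nsmul_le_card_of_maps_to (s := (univ : Finset (Fin m → A)))
    (t := (univ : Finset (A → Fin (m + 1)))) (f := τ)
    (b := (Fintype.card A : ℝ) ^ m / ((m : ℝ) + 1) ^ Fintype.card A)
    (fun _ _ => mem_univ _) univ_nonempty (by
      simp only [card_univ, Fintype.card_pi, Fintype.card_fin, prod_const, nsmul_eq_mul]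
      push_cast
      rw [mul_div_cancel₀]
      positivity)
  obtain ⟨t, -, ht⟩ := h
  refine ⟨fun a => (t a : ℕ), ?_⟩
  have heq : (univ.filter (fun y => τ y = t)).card =
      Nat.card {y : Fin m → A // typ y = fun a => (t a : ℕ)} := by
    rw [Nat.card_eq_fintype_card, Fintype.card_subtype]
    congr 1
    ext y
    simp only [mem_filter, mem_univ, true_and]
    constructor
    · intro h
      funext a
      have := congrFun h a
      exact congrArg Fin.val this
    · intro h
      funext a
      exact Fin.ext (congrFun h a)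
  rw [heq, div_le_iff₀ (by positivity)] at ht
  linarith

omit [Fintype A] in
/-- two sequences of the same type differ by a permutation -/
theorem exists_perm_of_typ {m : ℕ} (y z : Fin m → A) (h : typ y = typ z) :
    ∃ σ : Equiv.Perm (Fin m), ∀ j, z (σ j) = y j := by
  classical
  have e : ∀ a, Nonempty ({j // y j = a} ≃ {j // z j = a}) := by
    intro a
    have := congrFun h a
    unfold typ at this
    rw [Nat.card_eq_fintype_card, Nat.card_eq_fintype_card] at this
    exact ⟨Fintype.equivOfCardEq this⟩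
  replace e := fun a => (e a).some
  refine ⟨(Equiv.sigmaFiberEquiv y).symm.trans ((Equiv.sigmaCongrRight e).trans
    (Equiv.sigmaFiberEquiv z)), ?_⟩
  intro j
  simp only [Equiv.trans_apply]
  have : ∀ p : (Σ a, {j // y j = a}), z (Equiv.sigmaFiberEquiv z (Equiv.sigmaCongrRight e p)) =
      p.1 := by
    rintro ⟨a, q⟩
    exact (e a q).2
  rw [this]
  rfl

omit [Fintype A] in
theorem typ_comp {m : ℕ} (y : Fin m → A) (σ : Equiv.Perm (Fin m)) :
    typ (fun j => y (σ j)) = typ y := by
  funext a
  unfold typ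
  exact Nat.card_congr
    { toFun := fun j => ⟨σ j.1, j.2⟩
      invFun := fun j => ⟨σ.symm j.1, by simpa using j.2⟩
      left_inv := fun j => by simp
      right_inv := fun j => by simp }

/-- exponentially small numbers are smaller than the reciprocals of polynomials -/
theorem exists_large (N k : ℕ) (ρ : ℝ) (hρ : 0 ≤ ρ) (hρN : ρ < N) :
    ∃ m : ℕ, 1 ≤ m ∧ (k : ℝ) * ρ ^ m * ((m : ℝ) + 1) ^ N < (N : ℝ) ^ m := by
  have hN : (0 : ℝ) < N := lt_of_le_of_lt hρ hρN
  have hq : ρ / N < 1 := by rwa [div_lt_one hN]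
  have h1 := tendsto_pow_const_mul_const_pow_of_lt_one N (div_nonneg hρ hN.le) hq
  have h2 : Filter.Tendsto (fun n : ℕ => ((k : ℝ) * 2 ^ N) * ((n : ℝ) ^ N * (ρ / N) ^ n))
      Filter.atTop (nhds 0) := by
    simpa using h1.const_mul ((k : ℝ) * 2 ^ N)
  have h3 := (h2.eventually (gt_mem_nhds (zero_lt_one))).and (Filter.eventually_ge_atTop 1)
  obtain ⟨m, hm, hm1⟩ := h3.exists
  refine ⟨m, hm1, ?_⟩
  have hm1' : (1 : ℝ) ≤ m := by exact_mod_cast hm1
  have h4 : ((m : ℝ) + 1) ^ N ≤ (2 * m) ^ N := by
    apply pow_le_pow_left₀ (by positivity)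
    linarith
  have h5 : (k : ℝ) * ρ ^ m * ((m : ℝ) + 1) ^ N ≤ (k : ℝ) * ρ ^ m * (2 * m) ^ N := by
    apply mul_le_mul_of_nonneg_left h4
    positivity
  have h6 : (k : ℝ) * ρ ^ m * (2 * m) ^ N =
      ((k : ℝ) * 2 ^ N) * ((m : ℝ) ^ N * (ρ / N) ^ m) * (N : ℝ) ^ m := by
    rw [div_pow, mul_pow]
    field_simp
  calc (k : ℝ) * ρ ^ m * ((m : ℝ) + 1) ^ N ≤
      ((k : ℝ) * 2 ^ N) * ((m : ℝ) ^ N * (ρ / N) ^ m) * (N : ℝ) ^ m := by rw [← h6]; exact h5
    _ < 1 * (N : ℝ) ^ m := by
        apply mul_lt_mul_of_pos_right hm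
        positivity
    _ = (N : ℝ) ^ m := one_mul _

end Pool.Agent.H148.SR
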