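import Pool.Agent.H148.SR.Pairing
import Pool.Agent.H148.SR.Tail

/-!
# Tensors whose support elements are determined by two disjoint sets of coordinates

`f : (Fin k → A) → F` has nonzero diagonal entries, and for a set `S` of indices every element
of the support of `f` is determined by its coordinates in `S`, and also by its coordinates outside
`S`. Then `f` has slice rank `|A|` (`slices_of_split`); and if in some bases all coefficients
of total weight less than one vanish then the total weight is at least `|A|` (`weights_of_split`).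

Proof: restrict the tensor powers of `f` to a large type class `Y ⊆ A^m`. The symmetric group
acts transitively on `Y`, so the support is uniformly distributed in every coordinate and the
pairing lemma applies. If the total weight were less than `|A|` then by Chernoff's bound the power
would vanish on subspaces of `F^Y` of exponentially small relative codimension.
-/

set_option autoImplicit false

namespace Pool.Agent.H148.SR

open Finset

universe u v

variable {F : Type u} [Field F] {A : Type v} [Fintype A] [DecidableEq A] {k : ℕ}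

/-- the action of a permutation of the positions on a type class -/
def act {m : ℕ} {t : A → ℕ} (σ : Equiv.Perm (Fin m)) (y : {y : Fin m → A // typ y = t}) :
    {y : Fin m → A // typ y = t} :=
  ⟨fun j => y.1 (σ j), (typ_comp y.1 σ).trans y.2⟩

/-- the `m`-th tensor power of `f` on a type class -/
def pow (f : (Fin k → A) → F) (m : ℕ) (t : A → ℕ) (x : Fin k → {y : Fin m → A // typ y = t}) : F :=
  ∏ j, f (fun i => (x i).1 j)

omit [Fintype A] [DecidableEq A] in
theorem pow_act (f : (Fin k → A) → F) {m : ℕ} {t : A → ℕ} (σ : Equiv.Perm (Fin m))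
    (x : Fin k → {y : Fin m → A // typ y = t}) : pow f m t (fun i => act σ (x i)) = pow f m t x := by
  unfold pow act
  exact Equiv.prod_comp σ (fun j => f (fun i => (x i).1 j))

omit [DecidableEq A] in
/-- all fibres have the same size -/
theorem fibre_card (f : (Fin k → A) → F) {m : ℕ} {t : A → ℕ} (i : Fin k)
    (y z : {y : Fin m → A // typ y = t}) :
    Nat.card {x // pow f m t x ≠ 0 ∧ x i = y} = Nat.card {x // pow f m t x ≠ 0 ∧ x i = z} := by
  obtain ⟨σ, hσ⟩ := exists_perm_of_typ z.1 y.1 (z.2.trans y.2.symm)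
  have h1 : act σ y = z := Subtype.ext (funext hσ)
  have hinv : ∀ u : {y : Fin m → A // typ y = t}, act σ⁻¹ (act σ u) = u := by
    intro u
    apply Subtype.ext
    funext j
    simp [act]
  have hinv' : ∀ u : {y : Fin m → A // typ y = t}, act σ (act σ⁻¹ u) = u := by
    intro u
    apply Subtype.ext
    funext j
    simp [act]
  have h2 : act σ⁻¹ z = y := by rw [← h1, hinv]
  exact Nat.card_congr
    { toFun := fun x => ⟨fun l => act σ (x.1 l), by rw [pow_act]; exact x.2.1, by
        change act σ (x.1 i) = z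
        rw [x.2.2, h1]⟩
      invFun := fun x => ⟨fun l => act σ⁻¹ (x.1 l), by rw [pow_act]; exact x.2.1, by
        change act σ⁻¹ (x.1 i) = y
        rw [x.2.2, h2]⟩
      left_inv := fun x => by
        apply Subtype.ext
        funext l
        exact hinv _
      right_inv := fun x => by
        apply Subtype.ext
        funext l
        exact hinv' _ }

/-- the coordinates in the bases `g i` -/
noncomputable def coord (g : Matrix A A F) {m : ℕ} {t : A → ℕ}
    (h : {y : Fin m → A // typ y = t} → F) (s : Fin m → A) : F :=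
  ∑ y : {y : Fin m → A // typ y = t}, h y * ∏ j, g⁻¹ (y.1 j) (s j)

theorem coord_expand (g : Matrix A A F) (hg : IsUnit g) {m : ℕ} {t : A → ℕ}
    (h : {y : Fin m → A // typ y = t} → F) (z : Fin m → A) :
    ∑ s : Fin m → A, coord g h s * ∏ j, g (s j) (z j) =
      ∑ y : {y : Fin m → A // typ y = t}, h y * (if y.1 = z then 1 else 0) := by
  have hinv : g⁻¹ * g = 1 := Matrix.nonsing_inv_mul g ((Matrix.isUnit_iff_isUnit_det g).mp hg)
  calc ∑ s : Fin m → A, coord g h s * ∏ j, g (s j) (z j) =
      ∑ s : Fin m → A, ∑ y : {y : Fin m → A // typ y = t},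
        h y * ∏ j, (g⁻¹ (y.1 j) (s j) * g (s j) (z j)) := by
        refine sum_congr rfl fun s _ => ?_
        unfold coord
        rw [sum_mul]
        refine sum_congr rfl fun y _ => ?_
        rw [mul_assoc, prod_mul_distrib]
    _ = ∑ y : {y : Fin m → A // typ y = t}, h y *
        ∑ s : Fin m → A, ∏ j, (g⁻¹ (y.1 j) (s j) * g (s j) (z j)) := by
        rw [sum_comm]
        exact sum_congr rfl fun y _ => (mul_sum _ _ _).symm
    _ = ∑ y : {y : Fin m → A // typ y = t}, h y * (if y.1 = z then 1 else 0) := by
        refine sum_congr rfl fun y _ => ?_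
        congr 1
        rw [← Fintype.prod_sum (fun (j : Fin m) (s : A) => g⁻¹ (y.1 j) s * g s (z j))]
        have h1 : ∀ j, ∑ s, g⁻¹ (y.1 j) s * g s (z j) = if y.1 j = z j then 1 else 0 := by
          intro j
          rw [← Matrix.mul_apply, hinv, Matrix.one_apply]
        rw [prod_congr rfl fun j _ => h1 j, Fintype.prod_ite_zero]
        simp [funext_iff]

/-- the bound for one type class -/
theorem power_bound (f : (Fin k → A) → F) (hdiag : ∀ a, f (fun _ => a) ≠ 0) (S : Finset (Fin k))
    (hS1 : ∀ x y, f x ≠ 0 → f y ≠ 0 → (∀ i ∈ S, x i = y i) → x = y)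
    (hS2 : ∀ x y, f x ≠ 0 → f y ≠ 0 → (∀ i ∈ Sᶜ, x i = y i) → x = y)
    (g : Fin k → Matrix A A F) (hg : ∀ i, IsUnit (g i)) (w : Fin k → A → ℝ)
    (h0 : ∀ s : Fin k → A, ∑ i, w i (s i) < 1 → ∑ x, f x * ∏ i, g i (s i) (x i) = 0)
    (c : Fin k → ℝ) (hc : ∑ i, c i < 1) (m : ℕ) (hm : 1 ≤ m) (t : A → ℕ) :
    Nat.card {y : Fin m → A // typ y = t} ≤
      ∑ i, Nat.card {s : Fin m → A // (m : ℝ) * c i < ∑ j, w i (s j)} := by
  classical
  by_cases hY : Nonempty {y : Fin m → A // typ y = t}
  swap
  · rw [not_nonempty_iff] at hY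
    rw [Nat.card_of_isEmpty]
    exact Nat.zero_le _
  obtain ⟨y₀⟩ := hY
  rw [Nat.card_eq_fintype_card]
  have hsupp : ∀ x, pow f m t x ≠ 0 → ∀ j, f (fun i => (x i).1 j) ≠ 0 := by
    intro x hx j
    unfold pow at hx
    rw [prod_ne_zero_iff] at hx
    exact hx j (mem_univ j)
  have hdet : ∀ (R : Finset (Fin k)), (∀ x y, f x ≠ 0 → f y ≠ 0 → (∀ i ∈ R, x i = y i) → x = y) →
      ∀ x y, pow f m t x ≠ 0 → pow f m t y ≠ 0 → (∀ i ∈ R, x i = y i) → x = y := by
    intro R hR x y hx hy hxy
    funext i
    apply Subtype.ext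
    funext j
    have := hR _ _ (hsupp x hx j) (hsupp y hy j) (fun i hi => by rw [hxy i hi])
    exact congrFun this i
  let L : (i : Fin k) → ({y : Fin m → A // typ y = t} → F) →ₗ[F]
      ({s : Fin m → A // (m : ℝ) * c i < ∑ j, w i (s j)} → F) := fun i =>
    { toFun := fun h s => coord (g i) h s.1
      map_add' := by
        intro h h'
        funext s
        simp only [coord, Pi.add_apply, add_mul, sum_add_distrib]
      map_smul' := by
        intro a h
        funext s
        simp only [coord, Pi.smul_apply, smul_eq_mul, RingHom.id_apply, mul_sum, mul_assoc] }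
  refine pairing (pow f m t) S (hdet S hS1) (hdet Sᶜ hS2) ⟨fun _ => y₀, ?_⟩
    (fun i y => Nat.card {x // pow f m t x ≠ 0 ∧ x i = y}) ?_ (fun _ _ => rfl)
    (fun i => LinearMap.ker (L i)) _ ?_ ?_
  · unfold pow
    rw [prod_ne_zero_iff]
    intro j _
    exact hdiag _
  · -- uniform marginals
    intro i y
    have h1 : Nat.card {x // pow f m t x ≠ 0} =
        ∑ z, Nat.card {x // pow f m t x ≠ 0 ∧ x i = z} := by
      rw [← Nat.card_sigma]
      exact Nat.card_congr
        { toFun := fun x => ⟨x.1 i, x.1, x.2, rfl⟩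
          invFun := fun p => ⟨p.2.1, p.2.2.1⟩
          left_inv := fun x => rfl
          right_inv := by
            rintro ⟨z, x, hx, rfl⟩
            rfl }
    rw [h1, sum_congr rfl fun z _ => fibre_card f i z y, sum_const, card_univ, smul_eq_mul]
  · intro i
    have h1 := LinearMap.finrank_range_add_finrank_ker (L i)
    rw [Module.finrank_fintype_fun_eq_card] at h1
    have h2 := Submodule.finrank_le (LinearMap.range (L i))
    rw [Module.finrank_fintype_fun_eq_card, ← Nat.card_eq_fintype_card] at h2
    omega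
  · intro h hh
    have hE : ∀ i (z : Fin m → A), ∑ s : Fin m → A, coord (g i) (h i) s * ∏ j, g i (s j) (z j) =
        ∑ y : {y : Fin m → A // typ y = t}, h i y * (if y.1 = z then 1 else 0) :=
      fun i z => coord_expand (g i) (hg i) (h i) z
    have hE1 : ∀ i (y : {y : Fin m → A // typ y = t}),
        ∑ s : Fin m → A, coord (g i) (h i) s * ∏ j, g i (s j) (y.1 j) = h i y := by
      intro i y
      rw [hE, Finset.sum_eq_single y]
      · simp
      · intro z _ hz
        have : z.1 ≠ y.1 := fun h => hz (Subtype.ext h)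
        simp [this]
      · intro h; exact absurd (mem_univ _) h
    have hE0 : ∀ i (z : Fin m → A), typ z ≠ t →
        ∑ s : Fin m → A, coord (g i) (h i) s * ∏ j, g i (s j) (z j) = 0 := by
      intro i z hz
      rw [hE]
      refine sum_eq_zero fun y _ => ?_
      have : y.1 ≠ z := fun h => hz (h ▸ y.2)
      simp [this]
    have hstep : ∑ x, pow f m t x * ∏ i, h i (x i) =
        ∑ z : Fin k → Fin m → A, (∏ j, f (fun i => z i j)) *
          ∏ i, ∑ s : Fin m → A, coord (g i) (h i) s * ∏ j, g i (s j) (z i j) := by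
      refine Fintype.sum_of_injective (fun (x : Fin k → {y : Fin m → A // typ y = t}) i => (x i).1)
        ?_ _ _ ?_ ?_
      · intro x y hxy
        funext i
        exact Subtype.ext (congrFun hxy i)
      · intro z hz
        have : ∃ i, typ (z i) ≠ t := by
          by_contra hcon
          push Not at hcon
          exact hz ⟨fun i => ⟨z i, hcon i⟩, rfl⟩
        obtain ⟨i, hi⟩ := this
        rw [Finset.prod_eq_zero (mem_univ i) (hE0 i (z i) hi), mul_zero]
      · intro x
        unfold pow
        congr 1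
        exact prod_congr rfl fun i _ => (hE1 i (x i)).symm
    rw [hstep]
    have hexp : ∀ z : Fin k → Fin m → A, (∏ j, f (fun i => z i j)) *
          ∏ i, ∑ s : Fin m → A, coord (g i) (h i) s * ∏ j, g i (s j) (z i j) =
        ∑ s : Fin k → Fin m → A, (∏ i, coord (g i) (h i) (s i)) *
          ∏ j, (f (fun i => z i j) * ∏ i, g i (s i j) (z i j)) := by
      intro z
      rw [Fintype.prod_sum (fun (i : Fin k) (s : Fin m → A) =>
        coord (g i) (h i) s * ∏ j, g i (s j) (z i j)), mul_sum]
      refine sum_congr rfl fun s _ => ?_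
      rw [prod_mul_distrib, prod_mul_distrib, prod_comm]
      ring
    rw [sum_congr rfl fun z _ => hexp z, sum_comm]
    refine sum_eq_zero fun s _ => ?_
    rw [← mul_sum]
    by_cases hs : ∃ i, (m : ℝ) * c i < ∑ j, w i (s i j)
    · obtain ⟨i, hi⟩ := hs
      have : coord (g i) (h i) (s i) = 0 := congrFun (LinearMap.mem_ker.mp (hh i)) ⟨s i, hi⟩
      rw [Finset.prod_eq_zero (mem_univ i) this, zero_mul]
    · push Not at hs
      have hj : ∃ j, ∑ i, w i (s i j) < 1 := by
        by_contra hcon
        push Not at hcon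
        have h1 : (m : ℝ) ≤ ∑ j : Fin m, ∑ i, w i (s i j) := by
          calc (m : ℝ) = ∑ _j : Fin m, (1 : ℝ) := by simp
            _ ≤ _ := sum_le_sum fun j _ => hcon j
        rw [sum_comm] at h1
        have h2 : ∑ i, ∑ j : Fin m, w i (s i j) ≤ ∑ i, (m : ℝ) * c i :=
          sum_le_sum fun i _ => hs i
        rw [← mul_sum] at h2
        have h3 : (m : ℝ) * ∑ i, c i < m := by
          have : (0 : ℝ) < m := by exact_mod_cast hm
          nlinarith
        linarith
      obtain ⟨j, hj⟩ := hj
      have hprod : ∑ z : Fin k → Fin m → A, ∏ j, (f (fun i => z i j) *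
          ∏ i, g i (s i j) (z i j)) = ∏ j, ∑ x : Fin k → A, f x * ∏ i, g i (s i j) (x i) := by
        rw [Fintype.prod_sum (fun (j : Fin m) (x : Fin k → A) =>
          f x * ∏ i, g i (s i j) (x i))]
        exact Equiv.sum_comp (Equiv.piComm (fun (_ : Fin k) (_ : Fin m) => A))
          (fun z : Fin m → Fin k → A => ∏ j, (f (z j) * ∏ i, g i (s i j) (z j i)))
      rw [hprod, Finset.prod_eq_zero (mem_univ j) (h0 _ hj), mul_zero]

/-- **The weighted version.** -/
theorem weights_of_split (f : (Fin k → A) → F) (hdiag : ∀ a, f (fun _ => a) ≠ 0)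
    (S : Finset (Fin k))
    (hS1 : ∀ x y, f x ≠ 0 → f y ≠ 0 → (∀ i ∈ S, x i = y i) → x = y)
    (hS2 : ∀ x y, f x ≠ 0 → f y ≠ 0 → (∀ i ∈ Sᶜ, x i = y i) → x = y)
    (g : Fin k → Matrix A A F) (hg : ∀ i, IsUnit (g i)) (w : Fin k → A → ℝ)
    (h0 : ∀ s : Fin k → A, ∑ i, w i (s i) < 1 → ∑ x, f x * ∏ i, g i (s i) (x i) = 0) :
    (Fintype.card A : ℝ) ≤ ∑ i, ∑ s, w i s := by
  classical
  by_contra hcon
  push Not at hcon
  by_cases hA : IsEmpty A
  · simp at hcon
  rw [not_isEmpty_iff] at hA
  have hN : (0 : ℝ) < Fintype.card A := by exact_mod_cast Fintype.card_pos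
  set N : ℝ := (Fintype.card A : ℝ) with hNd
  set D : ℝ := N - ∑ i, ∑ s, w i s with hD
  have hD0 : 0 < D := by linarith
  -- the thresholds
  let c : Fin k → ℝ := fun i => (∑ s, w i s) / N + D / (N * (k + 1))
  have hk1 : (0 : ℝ) < k + 1 := by positivity
  have hcsum : ∑ i, c i < 1 := by
    have h1 : ∑ i, c i = (∑ i, ∑ s, w i s) / N + k * (D / (N * (k + 1))) := by
      simp only [c]
      rw [sum_add_distrib, ← Finset.sum_div]
      simp
    have h2 : (k : ℝ) * (D / (N * (k + 1))) < D / N := by
      rw [mul_div_assoc', div_lt_div_iff₀ (by positivity) hN]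
      nlinarith [mul_pos hD0 hN]
    rw [h1]
    calc (∑ i, ∑ s, w i s) / N + k * (D / (N * (k + 1))) < (∑ i, ∑ s, w i s) / N + D / N := by
          linarith
      _ = 1 := by
          rw [← add_div, hD]
          field_simp
          ring
  have hmean : ∀ i, ∑ s, (w i s - c i) < 0 := by
    intro i
    rw [sum_sub_distrib, sum_const, card_univ, nsmul_eq_mul, ← hNd]
    simp only [c]
    rw [mul_add, mul_div_cancel₀ _ hN.ne']
    have : 0 < N * (D / (N * (k + 1))) := by positivity
    linarith
  choose ρ hρ0 hρN hρ using fun i => chernoff (w i) (c i) (hmean i)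
  -- a common bound
  obtain ⟨r, hr0, hrN, hr⟩ : ∃ r : ℝ, 0 ≤ r ∧ r < N ∧ ∀ i, ρ i ≤ r := by
    by_cases hk : (univ : Finset (Fin k)).Nonempty
    · obtain ⟨i, -, hi⟩ := exists_max_image univ ρ hk
      exact ⟨ρ i, hρ0 i, hρN i, fun j => hi j (mem_univ j)⟩
    · refine ⟨0, le_refl _, hN, fun i => absurd ⟨i, mem_univ i⟩ hk⟩
  obtain ⟨m, hm1, hm⟩ := exists_large (Fintype.card A) k r hr0 hrN
  obtain ⟨t, ht⟩ := exists_type (A := A) m
  have hb := power_bound f hdiag S hS1 hS2 g hg w h0 c hcsum m hm1 t
  have hb' : (Nat.card {y : Fin m → A // typ y = t} : ℝ) ≤ k * r ^ m := by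
    calc (Nat.card {y : Fin m → A // typ y = t} : ℝ) ≤
        ∑ i, (Nat.card {s : Fin m → A // (m : ℝ) * c i < ∑ j, w i (s j)} : ℝ) := by
          exact_mod_cast hb
      _ ≤ ∑ _i : Fin k, r ^ m := by
          refine sum_le_sum fun i _ => le_trans (hρ i m) ?_
          exact pow_le_pow_left₀ (hρ0 i) (hr i) m
      _ = k * r ^ m := by simp
  have : (Fintype.card A : ℝ) ^ m ≤ k * r ^ m * ((m : ℝ) + 1) ^ Fintype.card A := by
    calc (Fintype.card A : ℝ) ^ m ≤ ((m : ℝ) + 1) ^ Fintype.card A *
        Nat.card {y : Fin m → A // typ y = t} := ht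
      _ ≤ ((m : ℝ) + 1) ^ Fintype.card A * (k * r ^ m) := by
          apply mul_le_mul_of_nonneg_left hb'
          positivity
      _ = _ := by ring
  exact absurd hm (not_lt.mpr this)

omit [DecidableEq A] in
/-- a tensor of slice rank `r` vanishes on a product of subspaces of total codimension `r` -/
theorem subspaces_of_slices (f : (Fin k → A) → F) (r : ℕ) (hr : SliceRankLE f r) :
    ∃ (V : Fin k → Submodule F (A → F)) (c : Fin k → ℕ), ∑ i, c i = r ∧
      (∀ i, Fintype.card A ≤ Module.finrank F (V i) + c i) ∧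
      ∀ h : Fin k → A → F, (∀ i, h i ∈ V i) → ∑ x, f x * ∏ i, h i (x i) = 0 := by
  classical
  obtain ⟨d, g, H, hH, hfx⟩ := hr
  let L : Fin k → (A → F) →ₗ[F] (Fin r → F) := fun i =>
    LinearMap.pi fun j => if d j = i then
      ∑ a, (g j a) • (LinearMap.proj a : (A → F) →ₗ[F] F) else 0
  refine ⟨fun i => LinearMap.ker (L i), fun i => (univ.filter (fun j => d j = i)).card, ?_, ?_, ?_⟩
  · rw [← card_eq_sum_card_fiberwise (f := d) (t := univ)]
    · simp
    · intro j _
      exact mem_coe.mpr (mem_univ _)
  · intro i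
    have h1 := LinearMap.finrank_range_add_finrank_ker (L i)
    rw [Module.finrank_fintype_fun_eq_card] at h1
    have h2 : Module.finrank F (LinearMap.range (L i)) ≤ (univ.filter (fun j => d j = i)).card := by
      let P : (Fin r → F) →ₗ[F] ({j // d j = i} → F) :=
        LinearMap.pi fun j => LinearMap.proj (j : Fin r)
      have h3 : Function.Injective (P.domRestrict (LinearMap.range (L i))) := by
        rw [← LinearMap.ker_eq_bot, LinearMap.ker_eq_bot']
        rintro ⟨v, hv⟩ hv0
        obtain ⟨w, rfl⟩ := hv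
        ext j
        by_cases hj : d j = i
        · have := congrFun hv0 ⟨j, hj⟩
          simpa [P] using this
        · simp [L, hj]
      have h4 := LinearMap.finrank_le_finrank_of_injective h3
      rw [Module.finrank_fintype_fun_eq_card, Fintype.card_subtype] at h4
      exact h4
    change Fintype.card A ≤ Module.finrank F (LinearMap.ker (L i)) +
      (univ.filter (fun j => d j = i)).card
    omega
  · intro h hh
    have hexp : ∀ x, f x * ∏ i, h i (x i) = ∑ j, g j (x (d j)) * H j x * ∏ i, h i (x i) := by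
      intro x
      rw [hfx, sum_mul]
    rw [sum_congr rfl fun x _ => hexp x, sum_comm]
    refine sum_eq_zero fun j _ => ?_
    apply slice_zero (d j) (g j) (H j) (hH j) h
    have := congrFun (LinearMap.mem_ker.mp (hh (d j))) j
    simpa [L] using this

/-- a basis adapted to a subspace -/
theorem exists_adapted (V : Submodule F (A → F)) : ∃ (g : Matrix A A F) (w : A → ℝ), IsUnit g ∧
    (∀ s, w s = 0 ∧ g s ∈ V ∨ w s = 1) ∧
    ∑ s, w s = (Fintype.card A : ℝ) - Module.finrank F V := by
  classical
  obtain ⟨W, hW⟩ := Submodule.exists_isCompl V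
  let b := ((Module.finBasis F V).prod (Module.finBasis F W)).map
    (Submodule.prodEquivOfIsCompl V W hW)
  have hcard : Fintype.card (Fin (Module.finrank F V) ⊕ Fin (Module.finrank F W)) =
      Fintype.card A := by
    rw [← Module.finrank_eq_card_basis b, Module.finrank_fintype_fun_eq_card]
  let e : (Fin (Module.finrank F V) ⊕ Fin (Module.finrank F W)) ≃ A := Fintype.equivOfCardEq hcard
  have hsum : (Module.finrank F W : ℝ) = (Fintype.card A : ℝ) - Module.finrank F V := by
    rw [← hcard, Fintype.card_sum, Fintype.card_fin, Fintype.card_fin]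
    push_cast
    ring
  refine ⟨Matrix.of (fun s => b (e.symm s)), fun s => Sum.elim (fun _ => 0) (fun _ => 1) (e.symm s),
    ?_, ?_, ?_⟩
  · rw [← Matrix.linearIndependent_rows_iff_isUnit]
    have h1 : LinearIndependent F (fun s => (b.reindex e) s) := (b.reindex e).linearIndependent
    have h2 : (fun s => (b.reindex e) s) = (Matrix.of (fun s => b (e.symm s))).row := by
      funext s x
      simp [Matrix.row, Matrix.of_apply]
    rw [← h2]
    exact h1
  · intro s
    rcases h : e.symm s with j | j
    · left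
      refine ⟨by simp [h], ?_⟩
      have : Matrix.of (fun s => b (e.symm s)) s = ((Module.finBasis F V j : V) : A → F) := by
        funext x
        simp [Matrix.of_apply, h, b]
      rw [this]
      exact (Module.finBasis F V j).2
    · right
      simp [h]
  · rw [← hsum, ← Equiv.sum_comp e]
    simp

/-- **The slice rank is at least `|A|`.** -/
theorem slices_of_split (f : (Fin k → A) → F) (hdiag : ∀ a, f (fun _ => a) ≠ 0)
    (S : Finset (Fin k))
    (hS1 : ∀ x y, f x ≠ 0 → f y ≠ 0 → (∀ i ∈ S, x i = y i) → x = y)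
    (hS2 : ∀ x y, f x ≠ 0 → f y ≠ 0 → (∀ i ∈ Sᶜ, x i = y i) → x = y)
    (r : ℕ) (hr : SliceRankLE f r) : Fintype.card A ≤ r := by
  classical
  obtain ⟨V, c, hcr, hc, h0⟩ := subspaces_of_slices f r hr
  choose g w hg hw hsum using fun i => exists_adapted (V i)
  have h := weights_of_split f hdiag S hS1 hS2 g hg w (by
    intro s hs
    apply h0
    intro i
    rcases hw i (s i) with ⟨-, h⟩ | h
    · exact h
    · exfalso
      have h1 : w i (s i) ≤ ∑ i, w i (s i) := by
        refine single_le_sum (f := fun i => w i (s i)) (fun l _ => ?_) (mem_univ i)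
        rcases hw l (s l) with ⟨h, -⟩ | h
        · exact h.ge
        · rw [h]; exact zero_le_one
      linarith)
  have h2 : ∑ i, ∑ s, w i s ≤ r := by
    rw [← hcr]
    push_cast
    refine sum_le_sum fun i _ => ?_
    rw [hsum i]
    have := hc i
    have : (Fintype.card A : ℝ) ≤ Module.finrank F (V i) + c i := by exact_mod_cast this
    linarith
  exact_mod_cast h.trans h2

end Pool.Agent.H148.SR
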